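import Pool.Agent.Q34.GeproType

/-!
# MP_e29873_ag, Q1: infinitely many projective classes of nontrivial `(a, b)`-geproci sets

For every `n ≥ 2` the nontrivial `(4, 3 n)`-geproci sets in complex projective three-space fall
into continuum many projective equivalence classes. The smallest case is `(a, b) = (4, 6)`.
-/

set_option autoImplicit false

open MvPolynomial Cardinal

namespace Pool.Agent.Results.MP_e29873_ag.ContinuumManyClasses

/-- The vector space `ℂ⁴`. -/
abbrev V4 : Type := Fin 4 → ℂ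

/-- The vector space `ℂ³`. -/
abbrev V3 : Type := Fin 3 → ℂ

/-- Complex projective three-space. -/
abbrev P3 : Type := Projectivization ℂ V4

/-- The coordinate ring of the plane. -/
abbrev R3 : Type := MvPolynomial (Fin 3) ℂ

/-- The homogeneous ideal of the (reduced) image of `Z` under the projection induced by the linear
map `π`: the polynomials vanishing at `π x` for all representatives `x` of all points of `Z`. -/
noncomputable def imageIdeal (Z : Set P3) (π : V4 →ₗ[ℂ] V3) : Ideal R3 where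
  carrier := {F | ∀ (x : V4) (hx : x ≠ 0), Projectivization.mk ℂ x hx ∈ Z → eval (π x) F = 0}
  zero_mem' := fun _ _ _ => by rw [map_zero]
  add_mem' := fun {F G} hF hG x hx hZ => by rw [map_add, hF x hx hZ, hG x hx hZ, add_zero]
  smul_mem' := fun c F hF x hx hZ => by rw [smul_eq_mul, map_mul, hF x hx hZ, mul_zero]

/-- `Z` is `(a, b)`-geproci, `1 ≤ a ≤ b`: `Z` is a finite set of `a b` points and for a general
point `P` (outside the zero set of some nonzero polynomial `D`) the image of `Z` under the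
projection from `P` to a plane is the reduced complete intersection of a curve of degree `a` and a
curve of degree `b` without common component, that is, its homogeneous ideal is generated by a
regular sequence of forms of degrees `a` and `b`. The projection from `P` is given by a linear map
`π` from `ℂ⁴` to `ℂ³` whose kernel is the line `P`. -/
def IsGeprociOfType (Z : Set P3) (a b : ℕ) : Prop :=
  1 ≤ a ∧ a ≤ b ∧ Z.Finite ∧ Z.ncard = a * b ∧
    ∃ D : MvPolynomial (Fin 4) ℂ, D ≠ 0 ∧ ∀ P : V4, eval P D ≠ 0 →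
      ∀ π : V4 →ₗ[ℂ] V3, LinearMap.ker π = Submodule.span ℂ {P} →
        ∃ F G : R3, F.IsHomogeneous a ∧ G.IsHomogeneous b ∧
          RingTheory.Sequence.IsRegular R3 [F, G] ∧ imageIdeal Z π = Ideal.span {F, G}

/-- `Z` lies in a plane. -/
def IsDegenerate (Z : Set P3) : Prop :=
  ∃ φ : V4 →ₗ[ℂ] ℂ, φ ≠ 0 ∧ ∀ z ∈ Z, φ z.rep = 0

/-- `Z` is an `(a, b)`-grid for some `1 ≤ a ≤ b`: the set of intersection points of `a` pairwise
skew lines with `b` pairwise skew lines, each line of the first family meeting each line of the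
second family in exactly one point. Lines are two-dimensional subspaces of `ℂ⁴`. -/
def IsGrid (Z : Set P3) : Prop :=
  ∃ a b : ℕ, 1 ≤ a ∧ a ≤ b ∧ ∃ (A : Fin a → Submodule ℂ V4) (B : Fin b → Submodule ℂ V4),
    (∀ i, Module.finrank ℂ (A i) = 2) ∧ (∀ j, Module.finrank ℂ (B j) = 2) ∧
    (∀ i i', i ≠ i' → A i ⊓ A i' = ⊥) ∧ (∀ j j', j ≠ j' → B j ⊓ B j' = ⊥) ∧
    (∀ i j, Module.finrank ℂ (A i ⊓ B j : Submodule ℂ V4) = 1) ∧
    Z = {z | ∃ i j, z.submodule = A i ⊓ B j}

/-- A nontrivial `(a, b)`-geproci set: not contained in a plane and not a grid. -/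
def IsNontrivialGeproci (Z : Set P3) (a b : ℕ) : Prop :=
  IsGeprociOfType Z a b ∧ ¬ IsDegenerate Z ∧ ¬ IsGrid Z

/-- `Z` is mapped onto `Z'` by a projective transformation. -/
def ProjectivelyEquivalent (Z Z' : Set P3) : Prop :=
  ∃ g : V4 ≃ₗ[ℂ] V4, Projectivization.map g.toLinearMap g.injective '' Z = Z'

/-- **Answer to Q1: yes.** For every `n ≥ 2` (for instance for `(a, b) = (4, 6)`) there are
continuum many nontrivial `(4, 3 n)`-geproci sets in `ℙ³` which are pairwise not projectively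
equivalent. -/
theorem result (n : ℕ) (hn : 2 ≤ n) :
    ∃ T : Set (Set P3), #T = 𝔠 ∧ (∀ Z ∈ T, IsNontrivialGeproci Z 4 (3 * n)) ∧
      ∀ Z ∈ T, ∀ Z' ∈ T, Z ≠ Z' → ¬ ProjectivelyEquivalent Z Z' := by
  obtain ⟨k, rfl⟩ : ∃ k, n = k + 1 := ⟨n - 1, by omega⟩
  obtain ⟨T, hT, hai, hne⟩ := Y744.GP.exists_large (k := k) (by omega)
  have hinj : Set.InjOn (fun t : Fin k → ℂ => Y744.GP.ZZ t) T := by
    intro t ht t' ht' h
    refine hne t ht t' ht' ?_
    have h' : Y744.GP.ZZ t = Y744.GP.ZZ t' := h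
    rw [h']
    exact Y744.GP.pe_refl _
  refine ⟨(fun t : Fin k → ℂ => Y744.GP.ZZ t) '' T, ?_, ?_, ?_⟩
  · rw [← hT]
    exact Cardinal.mk_image_eq_of_injOn _ _ hinj
  · rintro _ ⟨t, ht, rfl⟩
    have hg := Y744.GP.good_of_ai (hai t ht)
    refine ⟨⟨by norm_num, by omega, Set.finite_range _, ?_, Y744.GP.DS (Y744.GP.ext0 t),
      Y744.GP.DS_ne_zero hg, ?_⟩, ?_, ?_⟩
    · change (Y744.GP.ZZ t).ncard = _
      rw [Y744.GP.ncard_ZZ hg]
      ring
    · intro P hP π hπ
      obtain ⟨F, G, hF, hG, hr, hI⟩ := Q34.GeproType.geproci_S_type (Nat.succ_pos k) hg hP hπ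
      refine ⟨F, G, hF, ?_, hr, ?_⟩
      · rw [mul_comm]
        exact hG
      · rw [← hI]
        rfl
    · exact Y744.GP.not_isDegenerate_Zs (j₀ := 0) rfl
    · exact Y744.GP.not_isGrid_Zs (j₀ := 0) rfl
  · rintro _ ⟨t, ht, rfl⟩ _ ⟨t', ht', rfl⟩ hZ h
    apply hZ
    rw [hne t ht t' ht' h]

end Pool.Agent.Results.MP_e29873_ag.ContinuumManyClasses
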